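import Pool.Agent.H272R3.SR.Defs

set_option autoImplicit false

namespace Pool.Agent.H272R3.SR

open Pool.Agent.Helper941.Hyp

variable {ar : ℕ → ℕ} {A : Struct ar}

theorem bf_iff (A : Struct ar) (α : Ordinal.{0}) (a b : List ℕ) : BF A α a b ↔
    QF A a b ∧ ∀ β, β < α → (∀ c, ∃ d, BF A β (a ++ c) (b ++ d)) ∧
      (∀ d, ∃ c, BF A β (a ++ c) (b ++ d)) := by
  rw [BF]

theorem BF.mono {α β : Ordinal.{0}} {a b : List ℕ} (h : BF A α a b) (hβ : β ≤ α) :
    BF A β a b := by
  rw [bf_iff] at h ⊢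
  exact ⟨h.1, fun γ hγ => h.2 γ (hγ.trans_le hβ)⟩

theorem BF.qf {α : Ordinal.{0}} {a b : List ℕ} (h : BF A α a b) : QF A a b := by
  rw [bf_iff] at h
  exact h.1

theorem AutEq.append {a b : List ℕ} (h : AutEq A a b) (c : List ℕ) :
    ∃ d, AutEq A (a ++ c) (b ++ d) := by
  obtain ⟨f, hf, rfl⟩ := h
  exact ⟨c.map f, f, hf, by simp⟩

theorem AutEq.symm {a b : List ℕ} (h : AutEq A a b) : AutEq A b a := by
  obtain ⟨f, hf, rfl⟩ := h
  refine ⟨f.symm, fun i v => ?_, ?_⟩
  · have h1 := hf i fun k => f.symm (v k)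
    simp only [Equiv.apply_symm_apply] at h1
    exact h1.symm
  · rw [List.map_map]
    have : (f.symm ∘ f) = id := by funext x; simp
    rw [this, List.map_id]

theorem AutEq.qf {a b : List ℕ} (h : AutEq A a b) : QF A a b := by
  obtain ⟨f, hf, rfl⟩ := h
  have hg : ∀ i, i < a.length → (a.map f).getD i 0 = f (a.getD i 0) := by
    intro i hi
    simp [List.getD_eq_getElem?_getD, hi]
  refine ⟨by simp, fun i j hi hj => ?_, fun i v hv => ?_⟩
  · rw [hg i hi, hg j hj]
    exact f.injective.eq_iff.symm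
  · rw [hf]
    have : (fun k => f (a.getD (v k) 0)) = fun k => (a.map f).getD (v k) 0 := by
      funext k
      exact (hg _ (hv k)).symm
    rw [this]

theorem AutEq.bf (α : Ordinal.{0}) : ∀ {a b : List ℕ}, AutEq A a b → BF A α a b := by
  induction α using WellFoundedLT.induction with
  | ind α ih =>
    intro a b h
    rw [bf_iff]
    refine ⟨h.qf, fun β hβ => ⟨fun c => ?_, fun d => ?_⟩⟩
    · obtain ⟨d, hd⟩ := h.append c
      exact ⟨d, ih β hβ hd⟩
    · obtain ⟨c, hc⟩ := h.symm.append d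
      exact ⟨c, ih β hβ hc.symm⟩

/-- the back-and-forth relations stabilise -/
theorem exists_stable (A : Struct ar) : ∃ γ : Ordinal.{0}, ∀ a b, BF A γ a b →
    ∀ β, BF A β a b := by
  classical
  let g : List ℕ × List ℕ → Ordinal.{0} := fun p => sInf {β | ¬ BF A β p.1 p.2}
  refine ⟨⨆ p, g p, fun a b h β => ?_⟩
  by_contra hc
  have h1 : ¬ BF A (g (a, b)) a b := csInf_mem (s := {β | ¬ BF A β a b}) ⟨β, hc⟩
  have h2 : g (a, b) ≤ ⨆ p, g p := Ordinal.le_iSup g (a, b)
  exact h1 (h.mono h2)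

/-- the limit of the back-and-forth relations -/
def BI (A : Struct ar) (a b : List ℕ) : Prop := ∀ β, BF A β a b

theorem BI.forth {a b : List ℕ} (h : BI A a b) (c : List ℕ) : ∃ d, BI A (a ++ c) (b ++ d) := by
  obtain ⟨γ, hγ⟩ := exists_stable A
  have h1 := h (γ + 1)
  rw [bf_iff] at h1
  obtain ⟨d, hd⟩ := (h1.2 γ (lt_add_one γ)).1 c
  exact ⟨d, hγ _ _ hd⟩

theorem BI.back {a b : List ℕ} (h : BI A a b) (d : List ℕ) : ∃ c, BI A (a ++ c) (b ++ d) := by
  obtain ⟨γ, hγ⟩ := exists_stable A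
  have h1 := h (γ + 1)
  rw [bf_iff] at h1
  obtain ⟨c, hc⟩ := (h1.2 γ (lt_add_one γ)).2 d
  exact ⟨c, hγ _ _ hc⟩

/-- one round of the back-and-forth construction -/
theorem BI.round {a b : List ℕ} (h : BI A a b) (n : ℕ) :
    ∃ c d, BI A (a ++ c) (b ++ d) ∧ n ∈ c ∧ n ∈ d := by
  obtain ⟨d, hd⟩ := h.forth [n]
  obtain ⟨c, hc⟩ := hd.back [n]
  refine ⟨[n] ++ c, d ++ [n], ?_, by simp, by simp⟩
  rw [← List.append_assoc, ← List.append_assoc]
  exact hc

theorem BI.auto {a b : List ℕ} (h : BI A a b) : AutEq A a b := by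
  classical
  -- a chain of pairs
  let S := {p : List ℕ × List ℕ // BI A p.1 p.2}
  have hstep : ∀ (p : S) (n : ℕ), ∃ q : S, (∃ c d, q.1.1 = p.1.1 ++ c ∧ q.1.2 = p.1.2 ++ d ∧
      n ∈ c ∧ n ∈ d) := by
    rintro ⟨⟨x, y⟩, hp⟩ n
    obtain ⟨c, d, h1, h2, h3⟩ := BI.round hp n
    exact ⟨⟨(x ++ c, y ++ d), h1⟩, c, d, rfl, rfl, h2, h3⟩
  choose nx hnx using hstep
  let s : ℕ → S := fun n => Nat.rec ⟨(a, b), h⟩ (fun n p => nx p n) n
  have hs : ∀ n, s (n + 1) = nx (s n) n := fun n => rfl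
  have hpre : ∀ n m, n ≤ m → (s n).1.1 <+: (s m).1.1 ∧ (s n).1.2 <+: (s m).1.2 := by
    intro n m hnm
    induction m, hnm using Nat.le_induction with
    | base => exact ⟨List.prefix_refl _, List.prefix_refl _⟩
    | succ m _ ih =>
      obtain ⟨c, d, h1, h2, _⟩ := hnx (s m) m
      rw [← hs] at h1 h2
      exact ⟨ih.1.trans ⟨c, h1.symm⟩, ih.2.trans ⟨d, h2.symm⟩⟩
  have hlen : ∀ n, (s n).1.1.length = (s n).1.2.length := fun n => ((s n).2 0).qf.1
  -- positions
  have hpos1 : ∀ x, ∃ k, k < (s (x + 1)).1.1.length ∧ (s (x + 1)).1.1.getD k 0 = x := by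
    intro x
    obtain ⟨c, d, h1, _, h3, _⟩ := hnx (s x) x
    have h4 : x ∈ (s (x + 1)).1.1 := by rw [hs, h1]; simp [h3]
    obtain ⟨k, hk, hk2⟩ := List.getElem_of_mem h4
    exact ⟨k, hk, by simp [List.getD_eq_getElem?_getD, hk, hk2]⟩
  have hpos2 : ∀ x, ∃ k, k < (s (x + 1)).1.2.length ∧ (s (x + 1)).1.2.getD k 0 = x := by
    intro x
    obtain ⟨c, d, _, h2, _, h3⟩ := hnx (s x) x
    have h4 : x ∈ (s (x + 1)).1.2 := by rw [hs, h2]; simp [h3]
    obtain ⟨k, hk, hk2⟩ := List.getElem_of_mem h4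
    exact ⟨k, hk, by simp [List.getD_eq_getElem?_getD, hk, hk2]⟩
  have hget : ∀ {l m : List ℕ}, l <+: m → ∀ k, k < l.length → m.getD k 0 = l.getD k 0 := by
    rintro l m ⟨t, rfl⟩ k hk
    simp [List.getD_eq_getElem?_getD, List.getElem?_append_left hk]
  -- the sequences of all entries
  have hL : ∀ n, ∃ m, n < (s m).1.1.length := by
    intro n
    -- the entries 0, ..., n occur
    have : ∀ m, m ≤ (s m).1.1.length := by
      intro m
      induction m with
      | zero => omega
      | succ m ih =>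
        obtain ⟨c, d, h1, _, h3, _⟩ := hnx (s m) m
        rw [← hs] at h1
        rw [h1, List.length_append]
        have := List.length_pos_of_mem h3
        omega
    exact ⟨n + 1, by have := this (n + 1); omega⟩
  choose M hM using hL
  let u : ℕ → ℕ := fun k => (s (M k)).1.1.getD k 0
  let v : ℕ → ℕ := fun k => (s (M k)).1.2.getD k 0
  have hu : ∀ n k, k < (s n).1.1.length → (s n).1.1.getD k 0 = u k := by
    intro n k hk
    rcases le_total n (M k) with h1 | h1
    · exact (hget (hpre _ _ h1).1 k hk).symm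
    · exact hget (hpre _ _ h1).1 k (hM k)
  have hv : ∀ n k, k < (s n).1.1.length → (s n).1.2.getD k 0 = v k := by
    intro n k hk
    rcases le_total n (M k) with h1 | h1
    · exact (hget (hpre _ _ h1).2 k (by rw [← hlen]; exact hk)).symm
    · exact hget (hpre _ _ h1).2 k (by rw [← hlen]; exact hM k)
  have huv : ∀ k l, u k = u l ↔ v k = v l := by
    intro k l
    set n := max (M k) (M l)
    have h1 : k < (s n).1.1.length :=
      lt_of_lt_of_le (hM k) (hpre _ _ (le_max_left _ _)).1.length_le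
    have h2 : l < (s n).1.1.length :=
      lt_of_lt_of_le (hM l) (hpre _ _ (le_max_right _ _)).1.length_le
    rw [← hu n k h1, ← hu n l h2, ← hv n k h1, ← hv n l h2]
    exact ((s n).2 0).qf.2.1 k l h1 h2
  have hus : ∀ x, ∃ k, u k = x := by
    intro x
    obtain ⟨k, hk, hk2⟩ := hpos1 x
    exact ⟨k, by rw [← hu (x + 1) k hk, hk2]⟩
  have hvs : ∀ x, ∃ k, v k = x := by
    intro x
    obtain ⟨k, hk, hk2⟩ := hpos2 x
    have hk' : k < (s (x + 1)).1.1.length := by
      have := hlen (x + 1)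
      omega
    exact ⟨k, by rw [← hv (x + 1) k hk', hk2]⟩
  choose U hU using hus
  choose V hV using hvs
  let f : ℕ ≃ ℕ :=
    { toFun := fun x => v (U x)
      invFun := fun y => u (V y)
      left_inv := fun x => by
        show u (V (v (U x))) = x
        have h1 : v (V (v (U x))) = v (U x) := hV _
        have h2 := (huv _ _).2 h1
        rw [h2, hU]
      right_inv := fun y => by
        show v (U (u (V y))) = y
        have h1 : u (U (u (V y))) = u (V y) := hU _
        have h2 := (huv _ _).1 h1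
        rw [h2, hV] }
  have hf : ∀ k, f (u k) = v k := by
    intro k
    show v (U (u k)) = v k
    exact (huv _ _).1 (hU _)
  refine ⟨f, fun i w => ?_, ?_⟩
  · -- all entries of `w` occur in some `s n`
    have hb : ∃ n, ∀ k, U (w k) < (s n).1.1.length := by
      refine ⟨Finset.univ.sup fun k => M (U (w k)), fun k => ?_⟩
      exact lt_of_lt_of_le (hM _) (hpre _ _ (Finset.le_sup
        (f := fun k => M (U (w k))) (Finset.mem_univ k))).1.length_le
    obtain ⟨n, hn⟩ := hb
    have h1 := ((s n).2 0).qf.2.2 i (fun k => U (w k)) hn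
    have h2 : (fun k => (s n).1.1.getD (U (w k)) 0) = w := by
      funext k
      rw [hu n _ (hn k), hU]
    have h3 : (fun k => (s n).1.2.getD (U (w k)) 0) = fun k => f (w k) := by
      funext k
      rw [hv n _ (hn k)]
      rfl
    rw [h2, h3] at h1
    exact h1
  · have h0 : (s 0).1 = (a, b) := rfl
    have hl : a.length = b.length := (h 0).qf.1
    apply List.ext_getElem
    · simp [hl]
    · intro k hk1 hk2
      have hk : k < a.length := by simpa using hk1
      have h1 := hu 0 k (by rw [h0]; exact hk)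
      have h2 := hv 0 k (by rw [h0]; exact hk)
      rw [h0] at h1 h2
      simp only [List.getD_eq_getElem?_getD, List.getElem?_eq_getElem hk,
        List.getElem?_eq_getElem hk2, Option.getD_some] at h1 h2
      rw [List.getElem_map, h1, hf, ← h2]

theorem tupleRank_spec (A : Struct ar) (a b : List ℕ) (h : BF A (tupleRank A a) a b) :
    AutEq A a b := by
  obtain ⟨γ, hγ⟩ := exists_stable A
  have h1 : tupleRank A a ∈ {β | ∀ b, BF A β a b → AutEq A a b} :=
    csInf_mem ⟨γ, fun b hb => BI.auto (hγ a b hb)⟩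
  exact h1 b h

/-- below the Scott rank the back-and-forth relation is the orbit equivalence relation -/
theorem autEq_iff (A : Struct ar) {α : Ordinal.{0}} (hα : scottRank A ≤ α) (a b : List ℕ) :
    AutEq A a b ↔ BF A α a b := by
  refine ⟨AutEq.bf α, fun h => tupleRank_spec A a b (h.mono ?_)⟩
  have h1 : tupleRank A a + 1 ≤ scottRank A :=
    Ordinal.le_iSup (fun a : List ℕ => tupleRank A a + 1) a
  exact (le_of_lt (lt_add_one _)).trans (h1.trans hα)

end Pool.Agent.H272R3.SR
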