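import Mathlib
import Pool.Agent.Helper941.Hyp.Defs

set_option autoImplicit false

/-!
Scott rank of structures with universe `ω` in a relational language, following the usual
back-and-forth analysis.
-/

namespace Pool.Agent.H272R3.SR

open Pool.Agent.Helper941.Hyp

variable {ar : ℕ → ℕ}

/-- The tuples `a` and `b` (lists of elements) have the same length and satisfy the same
quantifier-free formulas in `A`. -/
def QF (A : Struct ar) (a b : List ℕ) : Prop :=
  a.length = b.length ∧
  (∀ i j, i < a.length → j < a.length → (a.getD i 0 = a.getD j 0 ↔ b.getD i 0 = b.getD j 0)) ∧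
  ∀ (i : ℕ) (v : Fin (ar i) → ℕ), (∀ k, v k < a.length) →
    (A i (fun k => a.getD (v k) 0) ↔ A i (fun k => b.getD (v k) 0))

/-- The back-and-forth relations `a ≡^α b` on tuples of `A`: for `α = 0` the tuples satisfy the
same quantifier-free formulas; for `α > 0` (where this is implied), for every `β < α` and every
tuple `c` there is a tuple `d` with `a, c ≡^β b, d`, and for every `d` there is such a `c`. -/
def BF (A : Struct ar) (α : Ordinal.{0}) (a b : List ℕ) : Prop :=
  QF A a b ∧ ∀ β, β < α → (∀ c, ∃ d, BF A β (a ++ c) (b ++ d)) ∧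
    (∀ d, ∃ c, BF A β (a ++ c) (b ++ d))
termination_by α

/-- Some automorphism of `A` takes the tuple `a` to the tuple `b`. -/
def AutEq (A : Struct ar) (a b : List ℕ) : Prop :=
  ∃ f : ℕ ≃ ℕ, (∀ i v, A i v ↔ A i fun k => f (v k)) ∧ a.map f = b

/-- The Scott rank of a tuple: the least `β` such that `a ≡^β b` only holds for the tuples `b`
in the orbit of `a`. -/
noncomputable def tupleRank (A : Struct ar) (a : List ℕ) : Ordinal.{0} :=
  sInf {β | ∀ b, BF A β a b → AutEq A a b}

/-- The Scott rank of `A`: the least ordinal greater than the ranks of all tuples. -/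
noncomputable def scottRank (A : Struct ar) : Ordinal.{0} :=
  ⨆ a : List ℕ, (tupleRank A a + 1)

/-- The least noncomputable ordinal `ω₁^CK`: the supremum of the order types of the computable
well-orderings of `ω`. -/
noncomputable def omega1CK : Ordinal.{0} :=
  ⨆ r : {r : ℕ → ℕ → Prop // ComputablePred (fun p : ℕ × ℕ => r p.1 p.2) ∧ IsWellOrder ℕ r},
    @Ordinal.type ℕ r.1 r.2.2

/-- `A` has noncomputable Scott rank. -/
def NoncompRank (A : Struct ar) : Prop := omega1CK ≤ scottRank A

end Pool.Agent.H272R3.SR
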