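import Pool.Agent.Helper941.Hyp.Sig

set_option autoImplicit false
set_option maxHeartbeats 400000

/-!
A calculus of `Σ¹₁` and `Δ¹₁` predicates with a function parameter.
-/

namespace Pool.Agent.H272R3.SR

open Encodable Denumerable Nat.Partrec Pool.Agent.Helper941 Pool.Agent.Helper941.IsoProb
open Pool.Agent.Helper941.Zeta Pool.Agent.Helper941.Hyp

variable {α β : Type} [Primcodable α] [Primcodable β]

/-- `Σ¹₁` predicates with a function parameter `f` -/
def S2 (P : α → (ℕ → ℕ) → Prop) : Prop :=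
  ∃ R : α × List ℕ × List ℕ → Prop, ComputablePred R ∧
    ∀ a f, P a f ↔ ∃ g : ℕ → ℕ, ∀ n, R (a, (List.range n).map f, (List.range n).map g)

theorem s2_gen {P : α → (ℕ → ℕ) → Prop} {R : α × ℕ × List ℕ × List ℕ → Prop}
    (hR : ComputablePred R) {u : α × ℕ → ℕ} (hu : Computable u)
    (h : ∀ a f, P a f ↔ ∃ g : ℕ → ℕ, ∀ n,
      R (a, n, (List.range (u (a, n))).map f, (List.range (u (a, n))).map g)) :
    S2 P := by
  refine ⟨fun p => ∀ n < p.2.1.length, u (p.1, n) ≤ p.2.1.length →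
    R (p.1, n, tk p.2.1 (u (p.1, n)), tk p.2.2 (u (p.1, n))), ?_, fun a f => ?_⟩
  · have h1 : Computable fun q : (α × List ℕ × List ℕ) × ℕ => u (q.1.1, q.2) :=
      hu.comp (c_pair (c_fst (c_fst c_id)) (c_snd c_id))
    have h2 : Computable fun q : (α × List ℕ × List ℕ) × ℕ => q.1.2.1.length :=
      Computable.list_length.comp (c_fst (c_snd (c_fst c_id)))
    have h3 : ComputablePred fun q : (α × List ℕ × List ℕ) × ℕ =>
        R (q.1.1, q.2, tk q.1.2.1 (u (q.1.1, q.2)), tk q.1.2.2 (u (q.1.1, q.2))) :=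
      computablePred_comp hR (c_pair (c_fst (c_fst c_id)) (c_pair (c_snd c_id)
        (c_pair (c_tk (c_fst (c_snd (c_fst c_id))) h1) (c_tk (c_snd (c_snd (c_fst c_id))) h1))))
    exact p_ball (Computable.list_length.comp (c_fst (c_snd c_id))) (p_imp (p_le h1 h2) h3)
  · rw [h]
    refine exists_congr fun g => ?_
    constructor
    · intro h1 k n hn hk
      simp only [List.length_map, List.length_range] at hn hk ⊢
      rw [tk_range f hk, tk_range g hk]
      exact h1 n
    · intro h1 n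
      have h2 := h1 (n + 1 + u (a, n)) n (by simp; omega) (by simp)
      simp only at h2
      rw [tk_range f (by omega), tk_range g (by omega)] at h2
      exact h2

theorem S2.of_iff {P Q : α → (ℕ → ℕ) → Prop} (h : S2 P) (e : ∀ a f, Q a f ↔ P a f) : S2 Q := by
  have : Q = P := funext fun a => funext fun f => propext (e a f)
  rw [this]; exact h

theorem S2.comp {P : β → (ℕ → ℕ) → Prop} (h : S2 P) {k : α → β} (hk : Computable k) :
    S2 fun a f => P (k a) f := by
  obtain ⟨R, hR, e⟩ := h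
  exact ⟨fun p => R (k p.1, p.2), computablePred_comp hR
    (c_pair (hk.comp Computable.fst) Computable.snd), fun a => e (k a)⟩

/-- predicates of one value of the parameter -/
theorem S2.val {Q : α × ℕ → Prop} (hQ : ComputablePred Q) {t : α → ℕ} (ht : Computable t) :
    S2 fun a f => Q (a, f (t a)) := by
  refine s2_gen (R := fun q => Q (q.1, gt q.2.2.1 (t q.1))) (u := fun p => t p.1 + 1) ?_ ?_ ?_
  · exact computablePred_comp hQ (c_pair (c_fst c_id)
      (c_gt (c_fst (c_snd (c_snd c_id))) (ht.comp (c_fst c_id))))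
  · exact c_succ (ht.comp (c_fst c_id))
  · intro a f
    constructor
    · intro h
      refine ⟨fun _ => 0, fun n => ?_⟩
      simp only
      rw [gt_range f (by omega)]
      exact h
    · rintro ⟨g, hg⟩
      have := hg 0
      simp only at this
      rw [gt_range f (by omega)] at this
      exact this

theorem S2.of_computable {P : α → Prop} (h : ComputablePred P) : S2 fun a _ => P a :=
  ⟨fun p => P p.1, computablePred_comp h Computable.fst,
    fun _ _ => ⟨fun h => ⟨fun _ => 0, fun _ => h⟩, fun ⟨_, h⟩ => h 0⟩⟩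

theorem S2.and {P Q : α → (ℕ → ℕ) → Prop} (h : S2 P) (h' : S2 Q) :
    S2 fun a f => P a f ∧ Q a f := by
  obtain ⟨R, hR, e⟩ := h
  obtain ⟨R', hR', e'⟩ := h'
  refine s2_gen (R := fun q => R (q.1, tk q.2.2.1 q.2.1, cl q.2.2.2 0 q.2.1) ∧
    R' (q.1, tk q.2.2.1 q.2.1, cl q.2.2.2 1 q.2.1))
    (u := fun p => p.2 + (Nat.pair 0 p.2 + Nat.pair 1 p.2)) ?_ ?_ fun a f => ?_
  · exact p_and (computablePred_comp hR (c_pair (c_fst c_id) (c_pair
      (c_tk (c_fst (c_snd (c_snd c_id))) (c_fst (c_snd c_id))) (c_cl (c_snd (c_snd (c_snd c_id)))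
      (c_const 0) (c_fst (c_snd c_id)))))) (computablePred_comp hR' (c_pair (c_fst c_id) (c_pair
      (c_tk (c_fst (c_snd (c_snd c_id))) (c_fst (c_snd c_id))) (c_cl (c_snd (c_snd (c_snd c_id)))
      (c_const 1) (c_fst (c_snd c_id))))))
  · exact c_add (c_snd c_id) (c_add (c_npair (c_const 0) (c_snd c_id))
      (c_npair (c_const 1) (c_snd c_id)))
  · rw [e, e']
    constructor
    · rintro ⟨⟨g, hg⟩, ⟨g', hg'⟩⟩
      refine ⟨fun x => if x.unpair.1 = 0 then g x.unpair.2 else g' x.unpair.2, fun n => ?_⟩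
      simp only
      rw [cl_range _ (by omega), cl_range _ (by omega), tk_range f (by omega)]
      simp only [Nat.unpair_pair]
      exact ⟨hg n, hg' n⟩
    · rintro ⟨g, hg⟩
      refine ⟨⟨fun k => g (Nat.pair 0 k), fun n => ?_⟩, ⟨fun k => g (Nat.pair 1 k), fun n => ?_⟩⟩
      · have := (hg n).1
        simp only at this
        rwa [cl_range _ (by omega), tk_range f (by omega)] at this
      · have := (hg n).2
        simp only at this
        rwa [cl_range _ (by omega), tk_range f (by omega)] at this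

theorem S2.all {P : α × ℕ → (ℕ → ℕ) → Prop} (h : S2 P) : S2 fun a f => ∀ y, P (a, y) f := by
  obtain ⟨R, hR, e⟩ := h
  refine s2_gen (R := fun q => R ((q.1, q.2.1.unpair.1), tk q.2.2.1 q.2.1.unpair.2,
    cl q.2.2.2 q.2.1.unpair.1 q.2.1.unpair.2)) (u := fun p => p.2) ?_ (c_snd c_id) fun a f => ?_
  · exact computablePred_comp hR (c_pair (c_pair (c_fst c_id) (c_up1 (c_fst (c_snd c_id))))
      (c_pair (c_tk (c_fst (c_snd (c_snd c_id))) (c_up2 (c_fst (c_snd c_id))))
        (c_cl (c_snd (c_snd (c_snd c_id))) (c_up1 (c_fst (c_snd c_id)))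
          (c_up2 (c_fst (c_snd c_id))))))
  · constructor
    · intro h1
      have h2 : ∀ y, ∃ g : ℕ → ℕ, ∀ n, R ((a, y), (List.range n).map f, (List.range n).map g) :=
        fun y => (e _ _).1 (h1 y)
      choose g hg using h2
      refine ⟨fun x => g x.unpair.1 x.unpair.2, fun n => ?_⟩
      simp only
      rw [cl_range _ (by rw [Nat.pair_unpair]), tk_range f (Nat.unpair_right_le n)]
      simp only [Nat.unpair_pair]
      exact hg _ _
    · rintro ⟨g, hg⟩ y
      refine (e _ _).2 ⟨fun k => g (Nat.pair y k), fun n => ?_⟩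
      have := hg (Nat.pair y n)
      simp only [Nat.unpair_pair] at this
      rwa [cl_range _ (le_refl _), tk_range f (Nat.right_le_pair y n)] at this

theorem S2.ex {P : α × ℕ → (ℕ → ℕ) → Prop} (h : S2 P) : S2 fun a f => ∃ y, P (a, y) f := by
  obtain ⟨R, hR, e⟩ := h
  refine s2_gen (R := fun q => R ((q.1, gt q.2.2.2 0), tk q.2.2.1 q.2.1, tl q.2.2.2 q.2.1))
    (u := fun p => p.2 + 1) ?_ (c_succ (c_snd c_id)) fun a f => ?_
  · exact computablePred_comp hR (c_pair (c_pair (c_fst c_id) (c_gt (c_snd (c_snd (c_snd c_id)))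
      (c_const 0))) (c_pair (c_tk (c_fst (c_snd (c_snd c_id))) (c_fst (c_snd c_id)))
        (c_tl (c_snd (c_snd (c_snd c_id))) (c_fst (c_snd c_id)))))
  · constructor
    · rintro ⟨y, hy⟩
      obtain ⟨g, hg⟩ := (e _ _).1 hy
      refine ⟨fun x => Nat.casesOn x y g, fun n => ?_⟩
      simp only
      rw [gt_range _ (by omega), tl_range, tk_range f (by omega)]
      exact hg n
    · rintro ⟨g, hg⟩
      refine ⟨g 0, (e _ _).2 ⟨fun k => g (k + 1), fun n => ?_⟩⟩
      have := hg n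
      simp only at this
      rwa [gt_range _ (by omega), tl_range, tk_range f (by omega)] at this

theorem S2.or {P Q : α → (ℕ → ℕ) → Prop} (h : S2 P) (h' : S2 Q) :
    S2 fun a f => P a f ∨ Q a f := by
  obtain ⟨R, hR, e⟩ := h
  obtain ⟨R', hR', e'⟩ := h'
  have h1 : S2 fun (p : α × ℕ) f => (p.2 = 0 → P p.1 f) ∧ (¬ p.2 = 0 → Q p.1 f) := by
    refine ⟨fun q => (q.1.2 = 0 → R (q.1.1, q.2)) ∧ (¬ q.1.2 = 0 → R' (q.1.1, q.2)), ?_,
      fun a f => ?_⟩
    · have h3 : ComputablePred fun q : (α × ℕ) × List ℕ × List ℕ => q.1.2 = 0 :=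
        p_eq (c_snd (c_fst c_id)) (c_const 0)
      exact p_and (p_imp h3 (computablePred_comp hR (c_pair (c_fst (c_fst c_id)) (c_snd c_id))))
        (p_imp (p_not h3) (computablePred_comp hR' (c_pair (c_fst (c_fst c_id)) (c_snd c_id))))
    · obtain ⟨a, y⟩ := a
      simp only
      rw [e, e']
      by_cases hy : y = 0
      · simp [hy]
      · simp [hy]
  refine (S2.ex h1).of_iff fun a f => ?_
  constructor
  · rintro (h2 | h2)
    · exact ⟨0, fun _ => h2, fun h => (h rfl).elim⟩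
    · exact ⟨1, fun h => absurd h (by simp), fun _ => h2⟩
  · rintro ⟨y, h2, h3⟩
    by_cases hy : y = 0
    · exact Or.inl (h2 hy)
    · exact Or.inr (h3 hy)

/-- projecting the parameter -/
theorem S2.exf {P : α → (ℕ → ℕ) → Prop} (h : S2 P) : Sigma11 fun a => ∃ f, P a f := by
  obtain ⟨R, hR, e⟩ := h
  refine sigma11_gen (R := fun q => R (q.1, cl q.2.2 0 q.2.1, cl q.2.2 1 q.2.1))
    (u := fun p => Nat.pair 0 p.2 + Nat.pair 1 p.2) ?_ ?_ fun a => ?_
  · exact computablePred_comp hR (c_pair (c_fst c_id) (c_pair (c_cl (c_snd (c_snd c_id))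
      (c_const 0) (c_fst (c_snd c_id))) (c_cl (c_snd (c_snd c_id))
      (c_const 1) (c_fst (c_snd c_id)))))
  · exact c_add (c_npair (c_const 0) (c_snd c_id)) (c_npair (c_const 1) (c_snd c_id))
  · constructor
    · rintro ⟨f, hf⟩
      obtain ⟨g, hg⟩ := (e a f).1 hf
      refine ⟨fun x => if x.unpair.1 = 0 then f x.unpair.2 else g x.unpair.2, fun n => ?_⟩
      simp only
      rw [cl_range _ (by omega), cl_range _ (by omega)]
      simp only [Nat.unpair_pair]
      exact hg n
    · rintro ⟨f, hf⟩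
      refine ⟨fun k => f (Nat.pair 0 k), (e a _).2 ⟨fun k => f (Nat.pair 1 k), fun n => ?_⟩⟩
      have := hf n
      simp only at this
      rwa [cl_range _ (by omega), cl_range _ (by omega)] at this

/-! ### both sides -/

/-- `Δ¹₁` predicates with a function parameter -/
def D2 (P : α → (ℕ → ℕ) → Prop) : Prop := S2 P ∧ S2 fun a f => ¬ P a f

theorem D2.of_iff {P Q : α → (ℕ → ℕ) → Prop} (h : D2 P) (e : ∀ a f, Q a f ↔ P a f) : D2 Q := by
  have : Q = P := funext fun a => funext fun f => propext (e a f)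
  rw [this]; exact h

theorem D2.comp {P : β → (ℕ → ℕ) → Prop} (h : D2 P) {k : α → β} (hk : Computable k) :
    D2 fun a f => P (k a) f := ⟨h.1.comp hk, h.2.comp hk⟩

theorem D2.val {Q : α × ℕ → Prop} (hQ : ComputablePred Q) {t : α → ℕ} (ht : Computable t) :
    D2 fun a f => Q (a, f (t a)) := ⟨S2.val hQ ht, S2.val (p_not hQ) ht⟩

theorem D2.of_computable {P : α → Prop} (h : ComputablePred P) : D2 fun a _ => P a :=
  ⟨S2.of_computable h, S2.of_computable (p_not h)⟩

theorem D2.not {P : α → (ℕ → ℕ) → Prop} (h : D2 P) : D2 fun a f => ¬ P a f :=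
  ⟨h.2, h.1.of_iff fun _ _ => not_not⟩

theorem D2.and {P Q : α → (ℕ → ℕ) → Prop} (h : D2 P) (h' : D2 Q) :
    D2 fun a f => P a f ∧ Q a f :=
  ⟨h.1.and h'.1, (h.2.or h'.2).of_iff fun _ _ => not_and_or⟩

theorem D2.or {P Q : α → (ℕ → ℕ) → Prop} (h : D2 P) (h' : D2 Q) :
    D2 fun a f => P a f ∨ Q a f :=
  ⟨h.1.or h'.1, (h.2.and h'.2).of_iff fun _ _ => not_or⟩

theorem D2.imp {P Q : α → (ℕ → ℕ) → Prop} (h : D2 P) (h' : D2 Q) :
    D2 fun a f => P a f → Q a f := (h.not.or h').of_iff fun _ _ => imp_iff_not_or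

theorem D2.iff {P Q : α → (ℕ → ℕ) → Prop} (h : D2 P) (h' : D2 Q) :
    D2 fun a f => (P a f ↔ Q a f) := ((h.imp h').and (h'.imp h)).of_iff fun _ _ => iff_def

theorem D2.ex {P : α × ℕ → (ℕ → ℕ) → Prop} (h : D2 P) : D2 fun a f => ∃ y, P (a, y) f :=
  ⟨h.1.ex, (h.2.all).of_iff fun _ _ => by push Not; rfl⟩

theorem D2.all {P : α × ℕ → (ℕ → ℕ) → Prop} (h : D2 P) : D2 fun a f => ∀ y, P (a, y) f :=
  ⟨h.1.all, (h.2.ex).of_iff fun _ _ => by push Not; rfl⟩

/-- quantification over lists -/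
theorem D2.exl {P : α × List ℕ → (ℕ → ℕ) → Prop} (h : D2 P) :
    D2 fun a f => ∃ y, P (a, y) f := by
  refine (D2.ex (P := fun (p : α × ℕ) f => P (p.1, ofNat (List ℕ) p.2) f)
    (h.comp (c_pair (c_fst c_id) ((Computable.ofNat (List ℕ)).comp (c_snd c_id))))).of_iff
    fun a f => ?_
  constructor
  · rintro ⟨y, hy⟩
    exact ⟨encode y, by simpa using hy⟩
  · rintro ⟨k, hk⟩
    exact ⟨_, hk⟩

theorem D2.alll {P : α × List ℕ → (ℕ → ℕ) → Prop} (h : D2 P) :
    D2 fun a f => ∀ y, P (a, y) f :=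
  (h.not.exl).not.of_iff fun a f => by push Not; rfl

end Pool.Agent.H272R3.SR
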