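import Pool.Agent.H272R3.SR.BF
import Pool.Agent.H272R3.SR.S2
import Pool.Agent.Helper941.Hyp.Ind

set_option autoImplicit false
set_option maxHeartbeats 400000

/-!
For a computable structure of computable Scott rank the orbit equivalence relation is `Δ¹₁`.
-/

namespace Pool.Agent.H272R3.SR

open Encodable Denumerable Nat.Partrec Pool.Agent.Helper941 Pool.Agent.Helper941.IsoProb
open Pool.Agent.Helper941.Zeta Pool.Agent.Helper941.Hyp Pool.Agent.Helper941.Dim

/-- the clauses of the definition of the back-and-forth relations along `r` -/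
def Clause (A : Struct ar2) (r : ℕ → ℕ → Prop) (n : ℕ) (a b : List ℕ) (F : ℕ → ℕ) : Prop :=
  QF A a b ∧ ∀ m, r m n → (∀ c, ∃ d, F (encode (m, a ++ c, b ++ d)) = 1) ∧
    (∀ d, ∃ c, F (encode (m, a ++ c, b ++ d)) = 1)

/-- `F` is the characteristic function of the back-and-forth relations along `r` -/
def Good (A : Struct ar2) (r : ℕ → ℕ → Prop) (F : ℕ → ℕ) : Prop :=
  ∀ (n : ℕ) (a b : List ℕ), F (encode (n, a, b)) = 1 ↔ Clause A r n a b F

section
variable {A : Struct ar2} {r : ℕ → ℕ → Prop} [IsWellOrder ℕ r]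

theorem bf_typein (n : ℕ) (a b : List ℕ) : BF A (Ordinal.typein r n) a b ↔
    QF A a b ∧ ∀ m, r m n → (∀ c, ∃ d, BF A (Ordinal.typein r m) (a ++ c) (b ++ d)) ∧
      (∀ d, ∃ c, BF A (Ordinal.typein r m) (a ++ c) (b ++ d)) := by
  rw [bf_iff]
  refine and_congr_right fun _ => ?_
  constructor
  · intro h m hm
    exact h _ ((Ordinal.typein_lt_typein r).2 hm)
  · intro h β hβ
    obtain ⟨m, rfl⟩ := Ordinal.typein_surj r (hβ.trans (Ordinal.typein_lt_type r n))
    exact h m ((Ordinal.typein_lt_typein r).1 hβ)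

theorem Good.eq {F : ℕ → ℕ} (hF : Good A r F) : ∀ (n : ℕ) (a b : List ℕ),
    F (encode (n, a, b)) = 1 ↔ BF A (Ordinal.typein r n) a b := by
  intro n
  induction n using (IsWellFounded.wf (r := r)).induction with
  | h n ih =>
    intro a b
    rw [hF, bf_typein]
    unfold Clause
    refine and_congr_right fun _ => forall_congr' fun m => forall_congr' fun hm => ?_
    simp only [ih m hm]

open Classical in
theorem exists_good : ∃ F, Good A r F := by
  let F : ℕ → ℕ := fun x => if BF A (Ordinal.typein r (ofNat (ℕ × List ℕ × List ℕ) x).1)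
    (ofNat (ℕ × List ℕ × List ℕ) x).2.1 (ofNat (ℕ × List ℕ × List ℕ) x).2.2 then 1 else 0
  have hF : ∀ (n : ℕ) (a b : List ℕ), F (encode (n, a, b)) = 1 ↔
      BF A (Ordinal.typein r n) a b := by
    intro n a b
    show (if BF A (Ordinal.typein r (ofNat (ℕ × List ℕ × List ℕ) (encode (n, a, b))).1)
      (ofNat (ℕ × List ℕ × List ℕ) (encode (n, a, b))).2.1
      (ofNat (ℕ × List ℕ × List ℕ) (encode (n, a, b))).2.2 then 1 else 0) = 1 ↔ _
    rw [ofNat_encode]
    simp
  refine ⟨F, fun n a b => ?_⟩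
  rw [hF, bf_typein]
  unfold Clause
  simp only [hF]

end

/-- `QF` for the binary language -/
theorem qf_iff (B : Str) (a b : List ℕ) : QF (toS B) a b ↔ a.length = b.length ∧
    (∀ i j, i < a.length → j < a.length → (gt a i = gt a j ↔ gt b i = gt b j)) ∧
    ∀ i p q, p < a.length → q < a.length →
      (B i (gt a p) (gt a q) ↔ B i (gt b p) (gt b q)) := by
  have hg : ∀ (l : List ℕ) k, l.getD k 0 = gt l k := by
    intro l k
    rw [List.getD_eq_getElem?_getD]
    rfl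
  unfold QF
  simp only [hg]
  refine and_congr_right fun _ => and_congr_right fun _ => ?_
  constructor
  · intro h i p q hp hq
    have := h i ![p, q] (by intro k; fin_cases k <;> simpa)
    exact this
  · intro h i v hv
    exact h i (v 0) (v 1) (hv 0) (hv 1)

theorem d2_qf {α : Type} [Primcodable α] {B : Str} (hB : IsComp B) {x y : α → List ℕ}
    (hx : Computable x) (hy : Computable y) : D2 fun a (_ : ℕ → ℕ) => QF (toS B) (x a) (y a) := by
  have e1 : D2 fun (a : α) (_ : ℕ → ℕ) => (x a).length = (y a).length :=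
    D2.of_computable (p_eq (Computable.list_length.comp hx) (Computable.list_length.comp hy))
  have e2 : D2 fun (a : α) (_ : ℕ → ℕ) => ∀ i j, i < (x a).length → j < (x a).length →
      (gt (x a) i = gt (x a) j ↔ gt (y a) i = gt (y a) j) := by
    refine D2.all (P := fun (p : α × ℕ) _ => ∀ j, p.2 < (x p.1).length → j < (x p.1).length →
      (gt (x p.1) p.2 = gt (x p.1) j ↔ gt (y p.1) p.2 = gt (y p.1) j)) ?_
    refine D2.all (P := fun (p : (α × ℕ) × ℕ) _ => p.1.2 < (x p.1.1).length →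
      p.2 < (x p.1.1).length →
      (gt (x p.1.1) p.1.2 = gt (x p.1.1) p.2 ↔ gt (y p.1.1) p.1.2 = gt (y p.1.1) p.2)) ?_
    have hX : Computable fun p : (α × ℕ) × ℕ => x p.1.1 := hx.comp (c_fst (c_fst c_id))
    have hY : Computable fun p : (α × ℕ) × ℕ => y p.1.1 := hy.comp (c_fst (c_fst c_id))
    have hi : Computable fun p : (α × ℕ) × ℕ => p.1.2 := c_snd (c_fst c_id)
    have hj : Computable fun p : (α × ℕ) × ℕ => p.2 := c_snd c_id
    exact D2.of_computable (p_imp (p_lt hi (Computable.list_length.comp hX))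
      (p_imp (p_lt hj (Computable.list_length.comp hX))
        (p_iff (p_eq (c_gt hX hi) (c_gt hX hj)) (p_eq (c_gt hY hi) (c_gt hY hj)))))
  have e3 : D2 fun (a : α) (_ : ℕ → ℕ) => ∀ i p q, p < (x a).length → q < (x a).length →
      (B i (gt (x a) p) (gt (x a) q) ↔ B i (gt (y a) p) (gt (y a) q)) := by
    refine D2.all (P := fun (z : α × ℕ) _ => ∀ p q, p < (x z.1).length → q < (x z.1).length →
      (B z.2 (gt (x z.1) p) (gt (x z.1) q) ↔ B z.2 (gt (y z.1) p) (gt (y z.1) q))) ?_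
    refine D2.all (P := fun (z : (α × ℕ) × ℕ) _ => ∀ q, z.2 < (x z.1.1).length →
      q < (x z.1.1).length → (B z.1.2 (gt (x z.1.1) z.2) (gt (x z.1.1) q) ↔
        B z.1.2 (gt (y z.1.1) z.2) (gt (y z.1.1) q))) ?_
    refine D2.all (P := fun (z : ((α × ℕ) × ℕ) × ℕ) _ => z.1.2 < (x z.1.1.1).length →
      z.2 < (x z.1.1.1).length → (B z.1.1.2 (gt (x z.1.1.1) z.1.2) (gt (x z.1.1.1) z.2) ↔
        B z.1.1.2 (gt (y z.1.1.1) z.1.2) (gt (y z.1.1.1) z.2))) ?_
    have hX : Computable fun z : ((α × ℕ) × ℕ) × ℕ => x z.1.1.1 :=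
      hx.comp (c_fst (c_fst (c_fst c_id)))
    have hY : Computable fun z : ((α × ℕ) × ℕ) × ℕ => y z.1.1.1 :=
      hy.comp (c_fst (c_fst (c_fst c_id)))
    have hi : Computable fun z : ((α × ℕ) × ℕ) × ℕ => z.1.1.2 := c_snd (c_fst (c_fst c_id))
    have hp : Computable fun z : ((α × ℕ) × ℕ) × ℕ => z.1.2 := c_snd (c_fst c_id)
    have hq : Computable fun z : ((α × ℕ) × ℕ) × ℕ => z.2 := c_snd c_id
    have k1 : ComputablePred fun z : ((α × ℕ) × ℕ) × ℕ =>
        B z.1.1.2 (gt (x z.1.1.1) z.1.2) (gt (x z.1.1.1) z.2) :=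
      computablePred_comp (P := fun q : ℕ × ℕ × ℕ => B q.1 q.2.1 q.2.2) hB
        (c_pair hi (c_pair (c_gt hX hp) (c_gt hX hq)))
    have k2 : ComputablePred fun z : ((α × ℕ) × ℕ) × ℕ =>
        B z.1.1.2 (gt (y z.1.1.1) z.1.2) (gt (y z.1.1.1) z.2) :=
      computablePred_comp (P := fun q : ℕ × ℕ × ℕ => B q.1 q.2.1 q.2.2) hB
        (c_pair hi (c_pair (c_gt hY hp) (c_gt hY hq)))
    exact D2.of_computable (p_imp (p_lt hp (Computable.list_length.comp hX))
      (p_imp (p_lt hq (Computable.list_length.comp hX)) (p_iff k1 k2)))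
  exact (e1.and (e2.and e3)).of_iff fun a _ => qf_iff B (x a) (y a)

theorem c_append {α : Type} [Primcodable α] {x y : α → List ℕ} (hx : Computable x)
    (hy : Computable y) : Computable fun a => x a ++ y a := Computable.list_append.comp hx hy

theorem d2_clause {B : Str} (hB : IsComp B) {r : ℕ → ℕ → Prop}
    (hr : ComputablePred fun p : ℕ × ℕ => r p.1 p.2) :
    D2 fun (p : (ℕ × List ℕ) × List ℕ) F => Clause (toS B) r p.1.1 p.1.2 p.2 F := by
  have h1 : D2 fun (p : (ℕ × List ℕ) × List ℕ) (_ : ℕ → ℕ) => QF (toS B) p.1.2 p.2 :=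
    d2_qf hB (c_snd (c_fst c_id)) (c_snd c_id)
  have h2 : D2 fun (q : ((ℕ × List ℕ) × List ℕ) × ℕ) (_ : ℕ → ℕ) => r q.2 q.1.1.1 :=
    D2.of_computable (computablePred_comp hr (c_pair (c_snd c_id) (c_fst (c_fst (c_fst c_id)))))
  have hv : ∀ {α : Type} [Primcodable α] {m : α → ℕ} {x y : α → List ℕ}, Computable m →
      Computable x → Computable y → D2 fun a (F : ℕ → ℕ) => F (encode (m a, x a, y a)) = 1 := by
    intro α _ m x y hm hx hy
    exact D2.val (Q := fun p : α × ℕ => p.2 = 1) (p_eq (c_snd c_id) (c_const 1))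
      (Computable.encode.comp (c_pair hm (c_pair hx hy)))
  have h3 : D2 fun (q : ((ℕ × List ℕ) × List ℕ) × ℕ) (F : ℕ → ℕ) =>
      ∀ c, ∃ d, F (encode (q.2, q.1.1.2 ++ c, q.1.2 ++ d)) = 1 := by
    refine D2.alll (P := fun (z : (((ℕ × List ℕ) × List ℕ) × ℕ) × List ℕ) F =>
      ∃ d, F (encode (z.1.2, z.1.1.1.2 ++ z.2, z.1.1.2 ++ d)) = 1) ?_
    refine D2.exl (P := fun (z : ((((ℕ × List ℕ) × List ℕ) × ℕ) × List ℕ) × List ℕ) F =>
      F (encode (z.1.1.2, z.1.1.1.1.2 ++ z.1.2, z.1.1.1.2 ++ z.2)) = 1) ?_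
    exact hv (c_snd (c_fst (c_fst c_id)))
      (c_append (c_snd (c_fst (c_fst (c_fst (c_fst c_id))))) (c_snd (c_fst c_id)))
      (c_append (c_snd (c_fst (c_fst (c_fst c_id)))) (c_snd c_id))
  have h4 : D2 fun (q : ((ℕ × List ℕ) × List ℕ) × ℕ) (F : ℕ → ℕ) =>
      ∀ d, ∃ c, F (encode (q.2, q.1.1.2 ++ c, q.1.2 ++ d)) = 1 := by
    refine D2.alll (P := fun (z : (((ℕ × List ℕ) × List ℕ) × ℕ) × List ℕ) F =>
      ∃ c, F (encode (z.1.2, z.1.1.1.2 ++ c, z.1.1.2 ++ z.2)) = 1) ?_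
    refine D2.exl (P := fun (z : ((((ℕ × List ℕ) × List ℕ) × ℕ) × List ℕ) × List ℕ) F =>
      F (encode (z.1.1.2, z.1.1.1.1.2 ++ z.2, z.1.1.1.2 ++ z.1.2)) = 1) ?_
    exact hv (c_snd (c_fst (c_fst c_id)))
      (c_append (c_snd (c_fst (c_fst (c_fst (c_fst c_id))))) (c_snd c_id))
      (c_append (c_snd (c_fst (c_fst (c_fst c_id)))) (c_snd (c_fst c_id)))
  exact h1.and (D2.all (P := fun (q : ((ℕ × List ℕ) × List ℕ) × ℕ) F => r q.2 q.1.1.1 →
    (∀ c, ∃ d, F (encode (q.2, q.1.1.2 ++ c, q.1.2 ++ d)) = 1) ∧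
    (∀ d, ∃ c, F (encode (q.2, q.1.1.2 ++ c, q.1.2 ++ d)) = 1)) (h2.imp (h3.and h4)))

theorem d2_good {B : Str} (hB : IsComp B) {r : ℕ → ℕ → Prop}
    (hr : ComputablePred fun p : ℕ × ℕ => r p.1 p.2) {α : Type} [Primcodable α] :
    D2 fun (_ : α) F => Good (toS B) r F := by
  refine D2.all (P := fun (p : α × ℕ) F => ∀ a b : List ℕ, F (encode (p.2, a, b)) = 1 ↔
    Clause (toS B) r p.2 a b F) ?_
  refine D2.alll (P := fun (p : (α × ℕ) × List ℕ) F => ∀ b : List ℕ,
    F (encode (p.1.2, p.2, b)) = 1 ↔ Clause (toS B) r p.1.2 p.2 b F) ?_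
  refine D2.alll (P := fun (p : ((α × ℕ) × List ℕ) × List ℕ) F =>
    (F (encode (p.1.1.2, p.1.2, p.2)) = 1 ↔ Clause (toS B) r p.1.1.2 p.1.2 p.2 F)) ?_
  refine D2.iff ?_ ?_
  · exact D2.val (Q := fun p : (((α × ℕ) × List ℕ) × List ℕ) × ℕ => p.2 = 1)
      (p_eq (c_snd c_id) (c_const 1)) (Computable.encode.comp
        (c_pair (c_snd (c_fst (c_fst c_id))) (c_pair (c_snd (c_fst c_id)) (c_snd c_id))))
  · exact (d2_clause hB hr).comp (k := fun p : ((α × ℕ) × List ℕ) × List ℕ =>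
      ((p.1.1.2, p.1.2), p.2)) (c_pair (c_pair (c_snd (c_fst (c_fst c_id))) (c_snd (c_fst c_id)))
        (c_snd c_id))

/-- the back-and-forth relations at the computable levels are `Δ¹₁` -/
theorem delta_bf {B : Str} (hB : IsComp B) {r : ℕ → ℕ → Prop}
    (hr : ComputablePred fun p : ℕ × ℕ => r p.1 p.2) [IsWellOrder ℕ r] (n : ℕ) :
    Delta11 fun p : List ℕ × List ℕ => BF (toS B) (Ordinal.typein r n) p.1 p.2 := by
  have hv : ∀ b : Bool, D2 fun (p : List ℕ × List ℕ) (F : ℕ → ℕ) =>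
      (F (encode (n, p.1, p.2)) = 1 ↔ b = true) := by
    intro b
    refine D2.val (Q := fun p : (List ℕ × List ℕ) × ℕ => (p.2 = 1 ↔ b = true))
      (p_iff (p_eq (c_snd c_id) (c_const 1)) (p_of_bool (c_const b)))
      (Computable.encode.comp (c_pair (c_const n) (c_pair (c_fst c_id) (c_snd c_id))))
  have key : ∀ b : Bool, Sigma11 fun p : List ℕ × List ℕ =>
      (BF (toS B) (Ordinal.typein r n) p.1 p.2 ↔ b = true) := by
    intro b
    refine (S2.exf ((d2_good hB hr).and (hv b)).1).of_iff fun p => ?_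
    constructor
    · intro h
      obtain ⟨F, hF⟩ := exists_good (A := toS B) (r := r)
      exact ⟨F, hF, by rw [hF.eq]; exact h⟩
    · rintro ⟨F, hF, h⟩
      rw [hF.eq] at h
      exact h
  exact ⟨(key true).of_iff fun p => by simp, (key false).of_iff fun p => by simp⟩

/-- If a computable structure has computable Scott rank, then its orbit equivalence relation on
tuples is `Δ¹₁`. -/
theorem delta_autEq {B : Str} (hB : IsComp B) (h : ¬ NoncompRank (toS B)) :
    Delta11 fun p : List ℕ × List ℕ => AutEq (toS B) p.1 p.2 := by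
  unfold NoncompRank at h
  rw [not_le, omega1CK] at h
  obtain ⟨⟨r, hr, hw⟩, h1⟩ := (Ordinal.lt_iSup_iff).1 h
  obtain ⟨n, hn⟩ := Ordinal.typein_surj r h1
  refine (delta_bf hB hr n).of_iff fun p => ?_
  rw [hn]
  exact autEq_iff (toS B) le_rfl p.1 p.2

end Pool.Agent.H272R3.SR
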