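import Pool.Agent.H272R3.SR.Lev
import Pool.Agent.Helper941.Hyp.Cls

set_option autoImplicit false
set_option maxHeartbeats 400000

namespace Pool.Agent.H272R3.SR

open Encodable Denumerable Nat.Partrec Pool.Agent.Helper941 Pool.Agent.Helper941.IsoProb
open Pool.Agent.Helper941.Zeta Pool.Agent.Helper941.Hyp Pool.Agent.Helper941.Dim

theorem exists_notY : ∃ u, ¬ Y u := by
  by_contra hc
  push Not at hc
  apply not_delta_XB
  have h2 : Delta11 fun u : ℕ => 1 ≤ u ∧ pH u = 0 :=
    Delta11.of_computable (p_and (p_le (c_const 1) c_id) (p_eq c_pH (c_const 0)))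
  refine h2.of_iff fun u => ?_
  have := hc u
  unfold XB
  unfold Y at this
  tauto

/-- the automorphisms of `MS (PP u b)` are the translations by flows, if no flow is odd at `u` -/
theorem xa_iff {u : ℕ} (hu : ¬ Y u) (b : Bool) (v : ℕ) : XA v ↔ (1 ≤ v ∧ pH v = 0) ∧
    AutEq (toS (MS (PP u b))) [idx pH (Nat.pair 0 0)] [idx pH (Nat.pair 0 (2 ^ v))] := by
  have hval : 1 ≤ v ∧ pH v = 0 → Valid pH (Nat.pair 0 (2 ^ v)) := by
    rintro ⟨h1, h2⟩ w hw
    rw [Nat.unpair_pair] at hw ⊢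
    rw [Nat.testBit_two_pow] at hw
    have : v = w := by simpa using hw
    subst this
    exact ⟨h1, h2⟩
  have h00 : Valid pH (Nat.pair 0 0) := valid_base _ 0
  constructor
  · rintro ⟨t, hF, ht⟩
    have hv : 1 ≤ v ∧ pH v = 0 := hF.child 0 v (by rw [ht, Nat.testBit_two_pow]; simp)
    refine ⟨hv, ?_⟩
    have h0 : PIso pH (As pH false) (idx pH) := by
      refine ⟨fun i p q _ hp hq => ?_, fun p q hp hq h => ?_, fun z => ?_⟩
      · show _ ↔ Rel pH false i (el pH (idx pH p)) (el pH (idx pH q))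
        rw [el_idx hp, el_idx hq]
      · rw [← el_idx hp, h, el_idx hq]
      · exact ⟨el pH z, el_valid _ z, idx_el _ z⟩
    obtain ⟨f, h1, h2⟩ := (h0.shift hF).toIso
    have h3 : ∀ x, el pH (f x) = sh t (el pH x) := by
      intro x
      rw [h2, el_idx (sh_valid hF (el_valid _ x))]
    have hpar : par (t u) = false := by
      by_contra hc
      exact hu ⟨t, hF, by simpa using hc⟩
    refine ⟨f, fun i w => ?_, ?_⟩
    · show MS (PP u b) i (w 0) (w 1) ↔ MS (PP u b) i (f (w 0)) (f (w 1))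
      by_cases hi : i = 0
      · subst hi
        rw [ms_zero, ms_zero, f.injective.eq_iff, h3, pp_sh, hpar, Bool.xor_false]
      · rw [ms_ne hi, ms_ne hi]
        exact h1 i _ _ hi
    · show [f (idx pH (Nat.pair 0 0))] = _
      rw [h2, el_idx h00]
      have : sh t (Nat.pair 0 0) = Nat.pair 0 (2 ^ v) := by
        refine unpair_inj ?_ ?_
        · rw [sh_fst, Nat.unpair_pair, Nat.unpair_pair]
        · rw [sh_snd, Nat.unpair_pair, Nat.unpair_pair]
          simp [ht]
      rw [this]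
  · rintro ⟨hv, f, hf, h1⟩
    have hfr : RedIso pH (As pH false) f := by
      intro i x y hi
      have := hf i ![x, y]
      have h2 : MS (PP u b) i x y ↔ MS (PP u b) i (f x) (f y) := this
      rw [ms_ne hi, ms_ne hi] at h2
      exact h2
    obtain ⟨t, hF, ht⟩ := aut_shift hfr
    refine ⟨t, hF, ?_⟩
    have h2 : f (idx pH (Nat.pair 0 0)) = idx pH (Nat.pair 0 (2 ^ v)) := by
      simpa using h1
    have h3 := ht (idx pH (Nat.pair 0 0))
    rw [h2, el_idx (hval hv), el_idx h00] at h3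
    have h4 := congrArg (fun p => (Nat.unpair p).2) h3
    simp only [sh_snd, Nat.unpair_pair] at h4
    rw [h4]
    simp

/-- the structure -/
noncomputable def SS (u : ℕ) : Str := MS (PP u false)

theorem comp_SS (u : ℕ) : IsComp (SS u) := by
  have hP : ComputablePred fun q : Unit × ℕ => PP u false q.2 :=
    p_and (p_eq (c_up1 (c_snd c_id)) (c_const u))
      (p_eqb (c_par (c_up2 (c_snd c_id))) (c_const false))
  have h := ms_comp (P := fun _ : Unit => PP u false) hP
  exact computablePred_comp (P := fun q : Unit × ℕ × ℕ × ℕ => MS (PP u false) q.2.1 q.2.2.1 q.2.2.2)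
    h (c_pair (c_const ()) c_id)

theorem rank_SS {u : ℕ} (hu : ¬ Y u) : NoncompRank (toS (SS u)) := by
  by_contra hc
  have h := delta_autEq (comp_SS u) hc
  apply not_delta_XA
  have hidx : Computable fun v : ℕ => [idx pH (Nat.pair 0 (2 ^ v))] :=
    Computable.list_cons.comp ((c_idx c_pH).comp (c_npair (c_const 0) (c_pow c_id))) (c_const [])
  have h1 : Delta11 fun v : ℕ => 1 ≤ v ∧ pH v = 0 :=
    Delta11.of_computable (p_and (p_le (c_const 1) c_id) (p_eq c_pH (c_const 0)))
  have h2 : Delta11 fun v : ℕ =>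
      AutEq (toS (SS u)) [idx pH (Nat.pair 0 0)] [idx pH (Nat.pair 0 (2 ^ v))] :=
    h.comp (c_pair (c_const [idx pH (Nat.pair 0 0)]) hidx)
  exact (h1.and h2).of_iff fun v => xa_iff hu false v

/-- the isomorphism class (among computable structures) of `SS u` -/
def KS (u : ℕ) : Set (Struct ar2) := {S | IsComputable S ∧ Iso (toS (SS u)) S}

theorem ks_hyp {u : ℕ} (hu : ¬ Y u) : HypClass (KS u) := by
  refine ⟨⟨fun A hA => hA.1, fun A hA B hB hAB => ⟨hB, hA.2.trans hAB⟩⟩, ?_⟩
  have h : Delta11 fun e : ℕ => Cls u false e :=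
    delta_Cls.comp (f := fun e : ℕ => (e, u, false)) (c_pair c_id (c_const (u, false)))
  refine h.of_iff fun e => ?_
  constructor
  · rintro ⟨A, ⟨_, hA⟩, he⟩
    obtain ⟨h1, h2⟩ := eq_of_index he
    rw [h2] at hA
    rcases cls_of_iso h1 hA with h3 | ⟨h3, _⟩
    · exact h3
    · exact (hu h3).elim
  · intro h1
    exact ⟨toS (SI e), ⟨⟨e, idx_of h1.1⟩, h1.iso⟩, idx_of h1.1⟩

theorem comp_toS (u : ℕ) : IsComputable (toS (SS u)) := by
  have hP : ComputablePred fun q : Unit × ℕ => PP u false q.2 :=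
    p_and (p_eq (c_up1 (c_snd c_id)) (c_const u))
      (p_eqb (c_par (c_up2 (c_snd c_id))) (c_const false))
  obtain ⟨g, _, hgi⟩ := exists_idx (β := Unit) (M := fun _ => MS (PP u false))
    (ms_comp (P := fun _ : Unit => PP u false) hP)
  exact ⟨g (), hgi ()⟩

theorem main : ∃ ar : ℕ → ℕ, Computable ar ∧ ∃ K : Set (Struct ar), HypClass K ∧
    (∃ A ∈ K, NoncompRank A) ∧ ∀ A ∈ K, ∀ B ∈ K, Iso A B := by
  obtain ⟨u, hu⟩ := exists_notY
  refine ⟨ar2, Computable.const 2, KS u, ks_hyp hu,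
    ⟨toS (SS u), ⟨comp_toS u, Iso.refl _⟩, rank_SS hu⟩, fun A hA B hB => ?_⟩
  exact hA.2.symm.trans hB.2

end Pool.Agent.H272R3.SR
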